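import Mathlib

set_option autoImplicit false

/-!
# Covers by monochromatic trees of distinct colours: the exact minimum degree

For an `r`-coloured graph `G` (finite or infinite) in which any `2 ^ r` vertices have a common closed
neighbour there is one vertex which is joined to every vertex by a monochromatic path. For finite
graphs this gives the exact minimum degree threshold `⌊(1 - 2 ^ (-r)) n⌋` for every `r` and every
`n ≥ 2 ^ r`.
-/

open Finset

namespace Pool.Agent.Results.MP_5f1228_co.ExactThreshold

/-- The graph of the edges of `G` of colour `i`. -/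
def colourGraph {V : Type} {r : ℕ} (G : SimpleGraph V) (c : Sym2 V → Fin r) (i : Fin r) :
    SimpleGraph V :=
  SimpleGraph.fromEdgeSet {e : Sym2 V | e ∈ G.edgeSet ∧ c e = i}

/-- Every vertex set of size at most `k` has a common closed neighbour. -/
def ClosedNbr {V : Type} (G : SimpleGraph V) (k : ℕ) : Prop :=
  ∀ B : Finset V, B.card ≤ k → ∃ x : V, ∀ y ∈ B, x = y ∨ G.Adj x y

section field
variable {V K : Type} [Field K]

/-- The product of differences. -/
noncomputable def MM {r : ℕ} (a : Fin r → V → K) (y x : V) : K := ∏ i : Fin r, (a i x - a i y)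

/-- The rows lie in a span of at most `2 ^ r` functions. -/
lemma rows_le {r : ℕ} (a : Fin r → V → K) :
    Submodule.span K (Set.range (MM a)) ≤
      Submodule.span K (Set.range (fun (S : Finset (Fin r)) (x : V) => ∏ i ∈ S, a i x)) := by
  classical
  rw [Submodule.span_le]
  rintro _ ⟨y, rfl⟩
  have hexp : MM a y =
      ∑ S ∈ (univ : Finset (Fin r)).powerset, (∏ i ∈ univ \ S, (- a i y)) •
        (fun x : V => ∏ i ∈ S, a i x) := by
    funext x
    have h := Finset.prod_add (fun i : Fin r => a i x) (fun i => - a i y) univ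
    simp only [← sub_eq_add_neg] at h
    show ∏ i : Fin r, (a i x - a i y) = _
    rw [h, Finset.sum_apply]
    apply Finset.sum_congr rfl
    intro S _
    simp [mul_comm]
  rw [hexp]
  apply Submodule.sum_mem
  intro S _
  apply Submodule.smul_mem
  exact Submodule.subset_span ⟨S, rfl⟩

/-- At most `2 ^ r` rows span all rows. -/
lemma exists_rows {r : ℕ} (a : Fin r → V → K) :
    ∃ B : Finset V, B.card ≤ 2 ^ r ∧
      ∀ x : V, (∀ y ∈ B, MM a y x = 0) → ∀ y : V, MM a y x = 0 := by
  classical
  obtain ⟨b, hb, hspan, hli⟩ := exists_linearIndependent K (Set.range (MM a))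
  have hle : Set.range ((↑) : b → (V → K)) ≤
      Submodule.span K (Set.range (fun (S : Finset (Fin r)) (x : V) => ∏ i ∈ S, a i x)) := by
    rw [Subtype.range_coe]
    intro f hf
    exact rows_le a (Submodule.subset_span (hb hf))
  have hcard := linearIndependent_le_span' (R := K) ((↑) : b → (V → K)) hli _ hle
  have h2 : Fintype.card (Set.range (fun (S : Finset (Fin r)) (x : V) => ∏ i ∈ S, a i x)) ≤
      2 ^ r := by
    have h3 := Fintype.card_range_le (fun (S : Finset (Fin r)) (x : V) => ∏ i ∈ S, a i x)
    simpa using h3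
  have hfin : b.Finite := by
    rw [← Cardinal.lt_aleph0_iff_set_finite]
    exact lt_of_le_of_lt hcard (Cardinal.natCast_lt_aleph0)
  have hbc : hfin.toFinset.card ≤ 2 ^ r := by
    have h4 : Cardinal.mk b = (hfin.toFinset.card : Cardinal) := by
      have : Fintype b := hfin.fintype
      rw [Cardinal.mk_fintype, Set.Finite.card_toFinset]
    rw [h4] at hcard
    have : hfin.toFinset.card ≤ Fintype.card (Set.range (fun (S : Finset (Fin r)) (x : V) =>
      ∏ i ∈ S, a i x)) := by exact_mod_cast hcard
    exact this.trans h2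
  have hch : ∀ f : V → K, ∃ y : Option V, f ∈ b → ∃ z, y = some z ∧ MM a z = f := by
    intro f
    by_cases hf : f ∈ b
    · obtain ⟨z, hz⟩ := hb hf
      exact ⟨some z, fun _ => ⟨z, rfl, hz⟩⟩
    · exact ⟨none, fun h => absurd h hf⟩
  choose g hg using hch
  refine ⟨(hfin.toFinset.image g).biUnion (fun o => o.toFinset), ?_, ?_⟩
  · refine (Finset.card_biUnion_le_card_mul _ _ 1 ?_).trans ?_
    · intro o _
      cases o <;> simp
    · rw [mul_one]
      exact Finset.card_image_le.trans hbc
  · intro x hx y
    have hz : ∀ f ∈ b, f x = 0 := by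
      intro f hf
      obtain ⟨z, hz1, hz2⟩ := hg f hf
      rw [← hz2]
      apply hx
      rw [Finset.mem_biUnion]
      exact ⟨g f, Finset.mem_image_of_mem g (by simpa using hf), by rw [hz1]; simp⟩
    have hmem : MM a y ∈ Submodule.span K b := by
      rw [hspan]
      exact Submodule.subset_span ⟨y, rfl⟩
    have hle2 : Submodule.span K b ≤
        LinearMap.ker (LinearMap.proj (R := K) (φ := fun _ : V => K) x) := by
      rw [Submodule.span_le]
      intro f hf
      simp [hz f hf]
    have := hle2 hmem
    simpa using this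

end field

/-- The main theorem: a common closed neighbour for every `2 ^ r` vertices suffices. -/
theorem general {V : Type} (G : SimpleGraph V) (r : ℕ) (hG : ClosedNbr G (2 ^ r))
    (c : Sym2 V → Fin r) : ∃ x : V, ∀ y : V, ∃ i : Fin r, (colourGraph G c i).Reachable x y := by
  classical
  let K := FractionRing (MvPolynomial V ℚ)
  let lab : V → K := fun v => algebraMap (MvPolynomial V ℚ) K (MvPolynomial.X v)
  have hlab : Function.Injective lab := fun u v h =>
    MvPolynomial.X_injective (IsFractionRing.injective (MvPolynomial V ℚ) K h)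
  let a : Fin r → V → K := fun i x => lab (Quot.out ((colourGraph G c i).connectedComponentMk x))
  have ha : ∀ i x y, a i x = a i y ↔ (colourGraph G c i).Reachable x y := by
    intro i x y
    constructor
    · intro h
      have h2 := hlab h
      have e1 := Quot.out_eq ((colourGraph G c i).connectedComponentMk x)
      have e2 := Quot.out_eq ((colourGraph G c i).connectedComponentMk y)
      have h3 : (colourGraph G c i).connectedComponentMk x =
          (colourGraph G c i).connectedComponentMk y := by
        rw [← e1, ← e2, h2]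
      exact SimpleGraph.ConnectedComponent.eq.mp h3
    · intro h
      have h3 : (colourGraph G c i).connectedComponentMk x =
          (colourGraph G c i).connectedComponentMk y := SimpleGraph.ConnectedComponent.eq.mpr h
      simp only [a, h3]
  obtain ⟨B, hB, hrows⟩ := exists_rows a
  obtain ⟨x, hx⟩ := hG B hB
  refine ⟨x, fun y => ?_⟩
  have h0 := hrows x (fun y hy => by
    unfold MM
    rcases hx y hy with h | h
    · subst h
      exact Finset.prod_eq_zero (Finset.mem_univ (c s(x, x))) (sub_self _)
    · refine Finset.prod_eq_zero (Finset.mem_univ (c s(x, y))) ?_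
      rw [sub_eq_zero, ha]
      refine SimpleGraph.Adj.reachable ?_
      unfold colourGraph
      rw [SimpleGraph.fromEdgeSet_adj]
      exact ⟨⟨h, rfl⟩, h.ne⟩) y
  unfold MM at h0
  rw [Finset.prod_eq_zero_iff] at h0
  obtain ⟨i, _, hi⟩ := h0
  exact ⟨i, (ha i x y).1 (sub_eq_zero.1 hi)⟩

/-- The minimum degree condition gives common closed neighbours. -/
theorem closedNbr_of_minDegree {V : Type} [Fintype V] [DecidableEq V] [Nonempty V]
    (G : SimpleGraph V) [DecidableRel G.Adj] (r : ℕ)
    (h : (2 ^ r - 1) * Fintype.card V / 2 ^ r ≤ G.minDegree) : ClosedNbr G (2 ^ r) := by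
  classical
  intro B hB
  by_contra hcon
  push Not at hcon
  have hlt : G.minDegree < Fintype.card V := G.minDegree_lt_card
  have hcov : (univ : Finset V) ⊆ B.biUnion (fun y => (insert y (G.neighborFinset y))ᶜ) := by
    intro x _
    obtain ⟨y, hy, h1, h2⟩ := hcon x
    rw [mem_biUnion]
    refine ⟨y, hy, ?_⟩
    rw [mem_compl, mem_insert, SimpleGraph.mem_neighborFinset]
    rintro (h3 | h3)
    · exact h1 h3
    · exact h2 h3.symm
  have hc : Fintype.card V ≤ B.card * (Fintype.card V - 1 - G.minDegree) := by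
    refine (card_le_card hcov).trans (card_biUnion_le_card_mul _ _ _ ?_)
    intro y _
    rw [Finset.card_compl, Finset.card_insert_of_notMem (by simp),
      SimpleGraph.card_neighborFinset_eq_degree]
    have := G.minDegree_le_degree y
    omega
  have hc2 : Fintype.card V ≤ 2 ^ r * (Fintype.card V - 1 - G.minDegree) :=
    hc.trans (Nat.mul_le_mul_right _ hB)
  have hp : 0 < 2 ^ r := by positivity
  have h3 : (2 ^ r - 1) * Fintype.card V < 2 ^ r * (G.minDegree + 1) := by
    rw [mul_comm (2 ^ r) (G.minDegree + 1)]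
    exact (Nat.div_lt_iff_lt_mul hp).1 (Nat.lt_succ_of_le h)
  obtain ⟨m, hm⟩ : ∃ m, Fintype.card V = G.minDegree + 1 + m :=
    ⟨Fintype.card V - (G.minDegree + 1), by omega⟩
  have e : Fintype.card V - 1 - G.minDegree = m := by omega
  rw [e] at hc2
  obtain ⟨p, hp'⟩ : ∃ p, 2 ^ r = p + 1 := ⟨2 ^ r - 1, by omega⟩
  rw [hp', Nat.add_sub_cancel] at h3
  rw [hp'] at hc2
  rw [hm] at h3 hc2
  nlinarith

section sharp
variable {W : Type} {r : ℕ}

/-- The graph of a labelling by 0-1 words: all pairs whose labels are not complementary. -/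
def HG (h : W → Fin r → Bool) : SimpleGraph W where
  Adj x y := x ≠ y ∧ ∃ i, h x i = h y i
  symm := ⟨fun _ _ hxy => ⟨hxy.1.symm, hxy.2.imp fun _ e => e.symm⟩⟩
  loopless := ⟨fun _ hx => hx.1 rfl⟩

/-- Some coordinate at which the labels agree. -/
noncomputable def hc (hr : Nonempty (Fin r)) (h : W → Fin r → Bool) : Sym2 W → Fin r :=
  Sym2.lift ⟨fun x y => @Classical.epsilon _ hr (fun i => h x i = h y i), fun x y => by
    have e : (fun i => h x i = h y i) = (fun i => h y i = h x i) :=
      funext fun i => propext eq_comm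
    show @Classical.epsilon _ hr (fun i => h x i = h y i) =
      @Classical.epsilon _ hr (fun i => h y i = h x i)
    rw [e]⟩

lemma hc_spec (hr : Nonempty (Fin r)) (h : W → Fin r → Bool) {x y : W} (hxy : (HG h).Adj x y) :
    h x (hc hr h s(x, y)) = h y (hc hr h s(x, y)) := by
  unfold hc
  rw [Sym2.lift_mk]
  exact Classical.epsilon_spec_aux hr (fun i => h x i = h y i) hxy.2

lemma reach_agree (hr : Nonempty (Fin r)) (h : W → Fin r → Bool) (i : Fin r) {x y : W}
    (hxy : (colourGraph (HG h) (hc hr h) i).Reachable x y) : h x i = h y i := by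
  obtain ⟨p⟩ := hxy
  induction p with
  | nil => rfl
  | cons hadj _ ih =>
    rw [← ih]
    unfold colourGraph at hadj
    rw [SimpleGraph.fromEdgeSet_adj] at hadj
    obtain ⟨⟨h1, h2⟩, _⟩ := hadj
    have h3 := hc_spec hr h h1
    rw [h2] at h3
    exact h3

/-- No cover by components of distinct colours. -/
lemma no_cover (hr : Nonempty (Fin r)) (h : W → Fin r → Bool) (hs : Function.Surjective h)
    (f : Fin r → W) : ∃ x, ∀ i, ¬ (colourGraph (HG h) (hc hr h) i).Reachable (f i) x := by
  obtain ⟨x, hx⟩ := hs (fun i => !(h (f i) i))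
  refine ⟨x, fun i hi => ?_⟩
  have h1 := reach_agree hr h i hi
  rw [hx] at h1
  simp at h1

lemma cube_closed (r : ℕ) (B : Finset (Fin r → Bool)) (hB : B.card < 2 ^ r) :
    ∃ x : Fin r → Bool, ∀ y ∈ B, x = y ∨ (HG (fun z : Fin r → Bool => z)).Adj x y := by
  have : ∃ z, z ∉ B := by
    by_contra hcon
    push Not at hcon
    have : B = univ := Finset.eq_univ_iff_forall.2 hcon
    rw [this, Finset.card_univ] at hB
    simp at hB
  obtain ⟨z, hz⟩ := this
  refine ⟨fun i => !(z i), fun y hy => ?_⟩
  by_cases hxy : (fun i => !(z i)) = y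
  · exact Or.inl hxy
  · refine Or.inr ⟨hxy, ?_⟩
    by_contra hcon
    push Not at hcon
    apply hz
    have : y = z := by
      funext i
      have := hcon i
      revert this
      cases z i <;> cases y i <;> simp
    rwa [this] at hy

end sharp

lemma fibre_card {n m : ℕ} (hm : 0 < m) (j : ℕ) :
    (univ.filter (fun k : Fin n => (k : ℕ) % m = j)).card ≤ (n + m - 1) / m := by
  have h : (univ.filter (fun k : Fin n => (k : ℕ) % m = j)).card ≤
      (range ((n + m - 1) / m)).card := by
    refine Finset.card_le_card_of_injOn (fun k : Fin n => (k : ℕ) / m) ?_ ?_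
    · intro k _
      have hk := k.2
      simp only [coe_range, Set.mem_Iio]
      rw [Nat.div_lt_iff_lt_mul hm]
      have h1 := Nat.div_add_mod (n + m - 1) m
      have h2 := Nat.mod_lt (n + m - 1) hm
      rw [mul_comm]
      omega
    · intro k hk l hl hkl
      simp only [coe_filter, mem_univ, true_and, Set.mem_ofPred_eq] at hk hl
      have h1 := Nat.div_add_mod (k : ℕ) m
      have h2 := Nat.div_add_mod (l : ℕ) m
      have h3 : (k : ℕ) / m = (l : ℕ) / m := hkl
      rw [h3, hk] at h1
      rw [hl] at h2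
      exact Fin.ext (by omega)
  simpa using h

/-- Sharpness for every order. -/
theorem sharp_order (r : ℕ) (hr1 : 1 ≤ r) (n : ℕ) (hn : 2 ^ r ≤ n) :
    ∃ (G : SimpleGraph (Fin n)) (_ : DecidableRel G.Adj) (c : Sym2 (Fin n) → Fin r),
      G.minDegree + 1 = (2 ^ r - 1) * n / 2 ^ r ∧
      ∀ f : Fin r → Fin n, ∃ x, ∀ i, ¬ (colourGraph G c i).Reachable (f i) x := by
  classical
  have hr : Nonempty (Fin r) := ⟨⟨0, hr1⟩⟩
  have hm : 0 < 2 ^ r := by positivity
  have hn0 : 0 < n := by omega
  have : Nonempty (Fin n) := ⟨⟨0, hn0⟩⟩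
  let e : (Fin r → Bool) ≃ Fin (2 ^ r) := Fintype.equivFinOfCardEq (by simp)
  let h : Fin n → Fin r → Bool := fun k => e.symm ⟨(k : ℕ) % 2 ^ r, Nat.mod_lt _ hm⟩
  have hs : Function.Surjective h := by
    intro w
    refine ⟨⟨(e w : ℕ), lt_of_lt_of_le (e w).2 hn⟩, ?_⟩
    show e.symm ⟨(e w : ℕ) % 2 ^ r, _⟩ = w
    rw [Equiv.symm_apply_eq]
    exact Fin.ext (Nat.mod_eq_of_lt (e w).2)
  refine ⟨HG h, Classical.decRel _, hc hr h, ?_, no_cover hr h hs⟩
  let _ : DecidableRel (HG h).Adj := Classical.decRel _
  show (HG h).minDegree + 1 = _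
  apply le_antisymm
  · by_contra hcon
    push Not at hcon
    have h1 : (2 ^ r - 1) * Fintype.card (Fin n) / 2 ^ r ≤ (HG h).minDegree := by
      rw [Fintype.card_fin]; omega
    obtain ⟨x, hx⟩ := general (HG h) r (closedNbr_of_minDegree (HG h) r h1) (hc hr h)
    obtain ⟨y, hy⟩ := no_cover hr h hs (fun _ => x)
    obtain ⟨i, hi⟩ := hx y
    exact hy i hi
  · have hdeg : ∀ x : Fin n, n ≤ (HG h).degree x + 1 + (n + 2 ^ r - 1) / 2 ^ r := by
      intro x
      have hsub : (univ : Finset (Fin n)) ⊆ (HG h).neighborFinset x ∪ {x} ∪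
          univ.filter (fun k : Fin n => (k : ℕ) % 2 ^ r = (e (fun i => !(h x i)) : ℕ)) := by
        intro y _
        rw [mem_union, mem_union, mem_singleton, SimpleGraph.mem_neighborFinset, mem_filter]
        by_cases hxy : y = x
        · exact Or.inl (Or.inr hxy)
        · by_cases hag : ∃ i, h x i = h y i
          · exact Or.inl (Or.inl ⟨fun h' => hxy h'.symm, hag⟩)
          · right
            push Not at hag
            refine ⟨mem_univ _, ?_⟩
            have h1 : h y = fun i => !(h x i) := by
              funext i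
              have := hag i
              revert this
              cases h x i <;> cases h y i <;> simp
            rw [← h1]
            show (y : ℕ) % 2 ^ r = (e (e.symm ⟨(y : ℕ) % 2 ^ r, _⟩) : ℕ)
            rw [Equiv.apply_symm_apply]
      have h1 := card_le_card hsub
      have h2 := (card_union_le ((HG h).neighborFinset x ∪ {x})
        (univ.filter (fun k : Fin n => (k : ℕ) % 2 ^ r = (e (fun i => !(h x i)) : ℕ))))
      have h3 := card_union_le ((HG h).neighborFinset x) {x}
      have h4 := fibre_card (n := n) hm (e (fun i => !(h x i)) : ℕ)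
      rw [SimpleGraph.card_neighborFinset_eq_degree, card_singleton] at h3
      rw [Finset.card_univ, Fintype.card_fin] at h1
      omega
    obtain ⟨v, hv⟩ := (HG h).exists_minimal_degree_vertex
    have h5 := hdeg v
    rw [← hv] at h5
    set t := (2 ^ r - 1) * n / 2 ^ r with ht
    have h6 : t * 2 ^ r ≤ (2 ^ r - 1) * n := Nat.div_mul_le_self _ _
    have h7 : (n + 2 ^ r - 1) / 2 ^ r ≤ n - t := by
      rw [Nat.div_le_iff_le_mul_add_pred hm]
      obtain ⟨p, hp⟩ : ∃ p, 2 ^ r = p + 1 := ⟨2 ^ r - 1, by omega⟩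
      rw [hp, Nat.add_sub_cancel] at h6
      have h8 : t ≤ n := by nlinarith
      obtain ⟨u, hu⟩ : ∃ u, n = t + u := ⟨n - t, by omega⟩
      have e1 : n - t = u := by omega
      rw [e1, hp]
      have : n ≤ (p + 1) * u := by nlinarith
      have h9 : n + (p + 1) - 1 = n + p := by omega
      rw [h9, Nat.add_sub_cancel]
      omega
    have h8 : t ≤ n := by
      have : (2 ^ r - 1) * n / 2 ^ r ≤ 2 ^ r * n / 2 ^ r :=
        Nat.div_le_div_right (Nat.mul_le_mul_right _ (Nat.sub_le _ _))
      rw [Nat.mul_div_cancel_left _ hm] at this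
      exact this
    omega

/-- **Exact thresholds.** (1) If any `2 ^ r` vertices of a graph `G` (finite or infinite) have a
common closed neighbour, then in every `r`-colouring some vertex is joined to every vertex by a
monochromatic path, so `r` monochromatic trees of distinct colours with a common vertex cover `G`.
(2) `2 ^ r` cannot be replaced by `2 ^ r - 1`. (3) `δ(G) ≥ ⌊(1 - 2 ^ (-r)) n⌋` implies the conclusion
of (1). (4) For all `n ≥ 2 ^ r` this is false for minimum degree `⌊(1 - 2 ^ (-r)) n⌋ - 1`. -/
theorem result :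
    (∀ (V : Type) (G : SimpleGraph V) (r : ℕ), ClosedNbr G (2 ^ r) →
      ∀ c : Sym2 V → Fin r, ∃ x : V, ∀ y : V, ∃ i : Fin r,
        (colourGraph G c i).Reachable x y) ∧
    (∀ r : ℕ, 1 ≤ r → ∃ (G : SimpleGraph (Fin r → Bool)) (c : Sym2 (Fin r → Bool) → Fin r),
      ClosedNbr G (2 ^ r - 1) ∧
      ∀ f : Fin r → (Fin r → Bool), ∃ x, ∀ i, ¬ (colourGraph G c i).Reachable (f i) x) ∧
    (∀ (r : ℕ) (V : Type) [Fintype V] [DecidableEq V] [Nonempty V]
      (G : SimpleGraph V) [DecidableRel G.Adj],
      (2 ^ r - 1) * Fintype.card V / 2 ^ r ≤ G.minDegree →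
      ∀ c : Sym2 V → Fin r, ∃ x : V, ∀ y : V, ∃ i : Fin r,
        (colourGraph G c i).Reachable x y) ∧
    (∀ r : ℕ, 1 ≤ r → ∀ n : ℕ, 2 ^ r ≤ n →
      ∃ (G : SimpleGraph (Fin n)) (_ : DecidableRel G.Adj) (c : Sym2 (Fin n) → Fin r),
        G.minDegree + 1 = (2 ^ r - 1) * n / 2 ^ r ∧
        ∀ f : Fin r → Fin n, ∃ x, ∀ i, ¬ (colourGraph G c i).Reachable (f i) x) := by
  refine ⟨fun V G r hG c => general G r hG c, fun r hr1 => ?_, ?_, sharp_order⟩
  · have hr : Nonempty (Fin r) := ⟨⟨0, hr1⟩⟩
    refine ⟨HG (fun z : Fin r → Bool => z), hc hr _, fun B hB => ?_,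
      no_cover hr _ Function.surjective_id⟩
    have hp : 0 < 2 ^ r := by positivity
    exact cube_closed r B (by omega)
  · intro r V _ _ _ G _ h c
    exact general G r (closedNbr_of_minDegree G r h) c

end Pool.Agent.Results.MP_5f1228_co.ExactThreshold
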